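import Mathlib
import Pool.Agent.U310.TQ.Stm

/-!
# Project TQ, package SMOOTH (helper894): few integers have only small prime factors (Rankin)
-/

set_option autoImplicit false

namespace Pool.Agent.U894.TQ

open Finset Filter Topology

/-- the powers with a negative exponent as a homomorphism -/
noncomputable def powHom (σ : ℝ) : ℕ →* ℝ where
  toFun n := (n : ℝ) ^ (-σ)
  map_one' := by simp
  map_mul' m n := by
    push_cast
    rw [Real.mul_rpow (by positivity) (by positivity)]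

lemma prime_lt_one {σ : ℝ} (hσ : 0 < σ) {r : ℕ} (hr : r.Prime) : ‖powHom σ r‖ < 1 := by
  have h2 : (1 : ℝ) < r := by exact_mod_cast hr.one_lt
  change ‖(r : ℝ) ^ (-σ)‖ < 1
  rw [Real.norm_of_nonneg (by positivity)]
  exact Real.rpow_lt_one_of_one_lt_of_neg h2 (by linarith)

lemma hasSum_smooth {σ : ℝ} (hσ : 0 < σ) (N : ℕ) :
    HasSum ((Nat.smoothNumbers N).indicator (fun n : ℕ => (n : ℝ) ^ (-σ)))
      (∏ r ∈ Nat.primesBelow N, (1 - (r : ℝ) ^ (-σ))⁻¹) := by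
  have h := (EulerProduct.summable_and_hasSum_smoothNumbers_prod_primesBelow_geometric
    (f := powHom σ) (fun {r} hr => prime_lt_one hσ hr) N).2
  rw [← hasSum_subtype_iff_indicator]
  exact h

lemma sum_smooth_le {σ : ℝ} (hσ : 0 < σ) (N : ℕ) (F : Finset ℕ)
    (hF : ∀ n ∈ F, n ∈ Nat.smoothNumbers N) :
    ∑ n ∈ F, (n : ℝ) ^ (-σ) ≤ ∏ r ∈ Nat.primesBelow N, (1 - (r : ℝ) ^ (-σ))⁻¹ := by
  have h := sum_le_hasSum F (fun n _ => Set.indicator_nonneg (fun n _ => by positivity) n)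
    (hasSum_smooth hσ N)
  refine le_trans (le_of_eq ?_) h
  exact Finset.sum_congr rfl fun n hn => by rw [Set.indicator_of_mem (hF n hn)]

lemma factor_le {σ : ℝ} (hσ : 1 / 2 ≤ σ) {p : ℕ} (hp : p.Prime) :
    (1 - (p : ℝ) ^ (-σ))⁻¹ ≤ Real.exp (4 * (p : ℝ) ^ (-σ)) ∧ 0 ≤ (1 - (p : ℝ) ^ (-σ))⁻¹ := by
  have hp2 : (2 : ℝ) ≤ p := by exact_mod_cast hp.two_le
  set x : ℝ := (p : ℝ) ^ (-σ) with hx
  have hx0 : 0 < x := Real.rpow_pos_of_pos (by linarith) _
  have hx1 : x ≤ 3 / 4 := by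
    have h1 : x ≤ (2 : ℝ) ^ (-σ) :=
      Real.rpow_le_rpow_of_nonpos (by norm_num) hp2 (by linarith)
    have h2 : (2 : ℝ) ^ (-σ) ≤ (2 : ℝ) ^ (-(1 / 2) : ℝ) :=
      Real.rpow_le_rpow_of_exponent_le (by norm_num) (by linarith)
    have h3 : ((2 : ℝ) ^ (-(1 / 2) : ℝ)) ^ 2 = 1 / 2 := by
      rw [← Real.rpow_natCast, ← Real.rpow_mul (by norm_num)]
      norm_num
    have h4 : (2 : ℝ) ^ (-(1 / 2) : ℝ) ≤ 3 / 4 := by
      have h5 : (0 : ℝ) < (2 : ℝ) ^ (-(1 / 2) : ℝ) := Real.rpow_pos_of_pos (by norm_num) _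
      nlinarith
    linarith
  have h1x : 0 < 1 - x := by linarith
  refine ⟨?_, (inv_pos.mpr h1x).le⟩
  have h6 : (1 - x)⁻¹ = x / (1 - x) + 1 := by
    field_simp
    ring
  have h7 : x / (1 - x) ≤ 4 * x := by
    rw [div_le_iff₀ h1x]
    nlinarith
  calc (1 - x)⁻¹ = x / (1 - x) + 1 := h6
    _ ≤ Real.exp (x / (1 - x)) := Real.add_one_le_exp _
    _ ≤ Real.exp (4 * x) := Real.exp_le_exp.mpr h7

lemma prod_le {σ : ℝ} (hσ : 1 / 2 ≤ σ) (N : ℕ) :
    ∏ r ∈ Nat.primesBelow N, (1 - (r : ℝ) ^ (-σ))⁻¹ ≤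
      Real.exp (4 * ∑ r ∈ Nat.primesBelow N, (r : ℝ) ^ (-σ)) := by
  rw [Finset.mul_sum, Real.exp_sum]
  refine Finset.prod_le_prod (fun r hr => (factor_le hσ (Nat.prime_of_mem_primesBelow hr)).2)
    fun r hr => (factor_le hσ (Nat.prime_of_mem_primesBelow hr)).1

lemma sum_primes_le {δ : ℝ} (hδ : 0 ≤ δ) (y : ℕ) :
    ∑ r ∈ Nat.primesBelow (y + 1), (r : ℝ) ^ (-(1 - δ)) ≤ (y : ℝ) ^ δ * (1 + Real.log y) := by
  have h1 : ∑ r ∈ Nat.primesBelow (y + 1), (r : ℝ) ^ (-(1 - δ)) ≤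
      ∑ r ∈ Finset.Icc 1 y, (r : ℝ) ^ (-(1 - δ)) := by
    refine Finset.sum_le_sum_of_subset_of_nonneg ?_ fun _ _ _ => by positivity
    intro r hr
    have hp := Nat.prime_of_mem_primesBelow hr
    have hlt := Nat.lt_of_mem_primesBelow hr
    rw [Finset.mem_Icc]
    exact ⟨hp.one_lt.le, by omega⟩
  have h2 : ∑ r ∈ Finset.Icc 1 y, (r : ℝ) ^ (-(1 - δ)) ≤
      ∑ r ∈ Finset.Icc 1 y, (y : ℝ) ^ δ * (r : ℝ)⁻¹ := by
    refine Finset.sum_le_sum fun r hr => ?_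
    rw [Finset.mem_Icc] at hr
    have hr0 : (0 : ℝ) < r := by exact_mod_cast hr.1
    have hry : (r : ℝ) ≤ y := by exact_mod_cast hr.2
    have e : (r : ℝ) ^ (-(1 - δ)) = (r : ℝ) ^ δ * (r : ℝ)⁻¹ := by
      rw [← Real.rpow_neg_one, ← Real.rpow_add hr0]
      congr 1
      ring
    rw [e]
    exact mul_le_mul_of_nonneg_right (Real.rpow_le_rpow hr0.le hry hδ) (by positivity)
  have h3 : ∑ r ∈ Finset.Icc 1 y, (r : ℝ)⁻¹ ≤ 1 + Real.log y := by
    have h4 := harmonic_le_one_add_log y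
    rw [harmonic_eq_sum_Icc] at h4
    push_cast at h4
    exact h4
  rw [← Finset.mul_sum] at h2
  exact h1.trans (h2.trans (mul_le_mul_of_nonneg_left h3 (by positivity)))

/-- The bound of Rankin. -/
lemma rankin (a n : ℕ) (hn : 3 ≤ n) (δ : ℝ) (hδ : 0 < δ) (hδ2 : δ ≤ 1 / 2)
    (haδ : (a : ℝ) * δ ≤ 1 / 2) :
    (({m : ℕ | 1 ≤ m ∧ m ≤ n ∧ ∀ l : ℕ, l.Prime → l ∣ m → (l : ℝ) ≤ Real.log n ^ a}).ncard : ℝ) ≤
      Real.exp ((1 - δ) * Real.log n + 4 * (√(Real.log n) * (1 + a * Real.log (Real.log n)))) := by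
  have hn0 : (0 : ℝ) < n := by exact_mod_cast (by omega : 0 < n)
  set u := Real.log n with hu
  have hu1 : 1 ≤ u := by
    rw [hu, Real.le_log_iff_exp_le hn0]
    have h3 : (3 : ℝ) ≤ n := by exact_mod_cast hn
    linarith [Real.exp_one_lt_d9]
  have hu0 : 0 < u := by linarith
  set y := ⌊u ^ a⌋₊ with hy
  have hua : 1 ≤ u ^ a := one_le_pow₀ hu1
  have hy1 : 1 ≤ y := by
    rw [hy]
    exact Nat.le_floor (by simpa using hua)
  have hyu : (y : ℝ) ≤ u ^ a := Nat.floor_le (by positivity)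
  have hy0 : (0 : ℝ) < y := by exact_mod_cast hy1
  set F := (Finset.Icc 1 n).filter (fun m => m ∈ Nat.smoothNumbers (y + 1)) with hF
  have hcard : ({m : ℕ | 1 ≤ m ∧ m ≤ n ∧ ∀ l : ℕ, l.Prime → l ∣ m → (l : ℝ) ≤ u ^ a}).ncard ≤
      F.card := by
    rw [← Set.ncard_coe_finset]
    refine Set.ncard_le_ncard ?_ (Finset.finite_toSet _)
    rintro m ⟨h1, h2, h3⟩
    rw [Finset.mem_coe, hF, Finset.mem_filter, Finset.mem_Icc]
    refine ⟨⟨h1, h2⟩, ?_⟩
    rw [Nat.mem_smoothNumbers']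
    intro p hp hpm
    have h4 := h3 p hp hpm
    have h5 : p ≤ y := Nat.le_floor h4
    omega
  have hσ : 1 / 2 ≤ 1 - δ := by linarith
  have hsum : (F.card : ℝ) ≤ (n : ℝ) ^ (1 - δ) * ∑ m ∈ F, (m : ℝ) ^ (-(1 - δ)) := by
    rw [Finset.mul_sum, Finset.card_eq_sum_ones]
    push_cast
    refine Finset.sum_le_sum fun m hm => ?_
    rw [hF, Finset.mem_filter, Finset.mem_Icc] at hm
    have hm0 : (0 : ℝ) < m := by exact_mod_cast hm.1.1
    have hmn : (m : ℝ) ≤ n := by exact_mod_cast hm.1.2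
    rw [Real.rpow_neg hm0.le, ← div_eq_mul_inv, one_le_div (Real.rpow_pos_of_pos hm0 _)]
    exact Real.rpow_le_rpow hm0.le hmn (by linarith)
  have h1 := sum_smooth_le (σ := 1 - δ) (by linarith) (y + 1) F (fun m hm => by
    rw [hF, Finset.mem_filter] at hm
    exact hm.2)
  have h2 := prod_le hσ (y + 1)
  have h3 := sum_primes_le hδ.le y
  have h4 : (y : ℝ) ^ δ * (1 + Real.log y) ≤ √u * (1 + a * Real.log u) := by
    have h5 : (y : ℝ) ^ δ ≤ √u := by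
      calc (y : ℝ) ^ δ ≤ (u ^ a) ^ δ := Real.rpow_le_rpow hy0.le hyu hδ.le
        _ = u ^ ((a : ℝ) * δ) := by rw [← Real.rpow_natCast, ← Real.rpow_mul hu0.le]
        _ ≤ u ^ (1 / 2 : ℝ) := Real.rpow_le_rpow_of_exponent_le hu1 haδ
        _ = √u := by rw [Real.sqrt_eq_rpow]
    have h6 : Real.log y ≤ a * Real.log u := by
      calc Real.log y ≤ Real.log (u ^ a) := Real.log_le_log hy0 hyu
        _ = a * Real.log u := by rw [Real.log_pow]
    have h7 : 0 ≤ Real.log y := Real.log_nonneg (by exact_mod_cast hy1)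
    exact mul_le_mul h5 (by linarith) (by linarith) (Real.sqrt_nonneg _)
  have hnpow : (n : ℝ) ^ (1 - δ) = Real.exp ((1 - δ) * u) := by
    rw [Real.rpow_def_of_pos hn0, hu]
    congr 1
    ring
  calc (({m : ℕ | 1 ≤ m ∧ m ≤ n ∧ ∀ l : ℕ, l.Prime → l ∣ m → (l : ℝ) ≤ u ^ a}).ncard : ℝ)
      ≤ (F.card : ℝ) := by exact_mod_cast hcard
    _ ≤ (n : ℝ) ^ (1 - δ) * ∑ m ∈ F, (m : ℝ) ^ (-(1 - δ)) := hsum
    _ ≤ (n : ℝ) ^ (1 - δ) * Real.exp (4 * (√u * (1 + a * Real.log u))) := by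
        refine mul_le_mul_of_nonneg_left (h1.trans (h2.trans (Real.exp_le_exp.mpr ?_)))
          (by positivity)
        linarith
    _ = Real.exp ((1 - δ) * u + 4 * (√u * (1 + a * Real.log u))) := by
        rw [hnpow, ← Real.exp_add]

/-- The asymptotic inequality. -/
lemma asym (a : ℕ) (δ : ℝ) (hδ : 0 < δ) : ∀ᶠ u : ℝ in atTop,
    (1 - δ) * u + 4 * (√u * (1 + a * Real.log u)) ≤ u - 2 * Real.log u := by
  obtain ⟨κ, hκ⟩ : ∃ κ : ℝ, κ = δ / (16 * (a + 1)) := ⟨_, rfl⟩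
  have ha0 : (0 : ℝ) ≤ a := Nat.cast_nonneg a
  have hκ0 : 0 < κ := by rw [hκ]; positivity
  have hκa : 4 * a * κ ≤ δ / 4 := by
    rw [hκ, mul_div_assoc', div_le_iff₀ (by positivity)]
    nlinarith
  have h1 := (isLittleO_log_rpow_atTop (by norm_num : (0 : ℝ) < 1 / 2)).bound hκ0
  have h2 : ∀ᶠ u : ℝ in atTop, ((4 + 2 * κ) * 4 / (3 * δ)) ≤ √u :=
    (Real.tendsto_sqrt_atTop.eventually_ge_atTop _)
  filter_upwards [h1, h2, eventually_ge_atTop (1 : ℝ)] with u hu1 hu2 hu3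
  have hu0 : 0 ≤ u := by linarith
  have hl0 : 0 ≤ Real.log u := Real.log_nonneg hu3
  rw [Real.norm_of_nonneg hl0, Real.norm_of_nonneg (by positivity), ← Real.sqrt_eq_rpow] at hu1
  set t := √u with ht
  have ht0 : 0 ≤ t := Real.sqrt_nonneg _
  have htt : t * t = u := Real.mul_self_sqrt hu0
  rw [div_le_iff₀ (by positivity)] at hu2
  have e1 : t * Real.log u ≤ κ * u := by
    calc t * Real.log u ≤ t * (κ * t) := mul_le_mul_of_nonneg_left hu1 ht0
      _ = κ * (t * t) := by ring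
      _ = κ * u := by rw [htt]
  have e2 : 4 * a * (t * Real.log u) ≤ δ / 4 * u := by
    calc 4 * a * (t * Real.log u) ≤ 4 * a * (κ * u) :=
          mul_le_mul_of_nonneg_left e1 (by positivity)
      _ = (4 * a * κ) * u := by ring
      _ ≤ δ / 4 * u := mul_le_mul_of_nonneg_right hκa hu0
  have e3 : (4 + 2 * κ) * t ≤ 3 / 4 * δ * u := by
    have e4 : (4 + 2 * κ) * 4 * t ≤ t * (3 * δ) * t := mul_le_mul_of_nonneg_right hu2 ht0
    have e5 : t * (3 * δ) * t = 3 * δ * u := by rw [← htt]; ring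
    rw [e5] at e4
    linarith
  have e6 : 2 * Real.log u ≤ 2 * κ * t := by linarith
  have e7 : 4 * (t * (1 + a * Real.log u)) = 4 * t + 4 * a * (t * Real.log u) := by ring
  rw [e7]
  linarith

theorem t_SMOOTH : Pool.Agent.U310.TQ.S_SMOOTH := by
  intro a
  have ha0 : (0 : ℝ) ≤ a := Nat.cast_nonneg a
  obtain ⟨δ, hδ⟩ : ∃ δ : ℝ, δ = 1 / (2 * (a + 1)) := ⟨_, rfl⟩
  have hδ0 : 0 < δ := by rw [hδ]; positivity
  have hδ2 : δ ≤ 1 / 2 := by
    rw [hδ, div_le_div_iff₀ (by positivity) (by norm_num)]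
    linarith
  have haδ : (a : ℝ) * δ ≤ 1 / 2 := by
    rw [hδ, mul_one_div, div_le_div_iff₀ (by positivity) (by norm_num)]
    linarith
  have h1 := (Real.tendsto_log_atTop.comp (tendsto_natCast_atTop_atTop (R := ℝ))).eventually
    (asym a δ hδ0)
  filter_upwards [h1, eventually_ge_atTop 3] with n hn1 hn3
  simp only [Function.comp_apply] at hn1
  refine (rankin a n hn3 δ hδ0 hδ2 haδ).trans ?_
  have hn0 : (0 : ℝ) < n := by exact_mod_cast (by omega : 0 < n)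
  have hu1 : 1 ≤ Real.log n := by
    rw [Real.le_log_iff_exp_le hn0]
    have h3 : (3 : ℝ) ≤ n := by exact_mod_cast hn3
    linarith [Real.exp_one_lt_d9]
  calc Real.exp ((1 - δ) * Real.log n +
        4 * (√(Real.log n) * (1 + a * Real.log (Real.log n))))
      ≤ Real.exp (Real.log n - 2 * Real.log (Real.log n)) := Real.exp_le_exp.mpr hn1
    _ = n / Real.log n ^ 2 := by
        rw [Real.exp_sub, Real.exp_log hn0]
        congr 1
        have : 2 * Real.log (Real.log n) = Real.log (Real.log n ^ 2) := by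
          rw [Real.log_pow]
          norm_num
        rw [this, Real.exp_log (by positivity)]

end Pool.Agent.U894.TQ
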